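import Pool.Agent.KS6_3.ZL.H427R3.ZT.TaskA
import Pool.Agent.KS6_3.ZL.H427R3.ZT.Pow

/-! Project ZT, task (B). -/

set_option autoImplicit false
set_option linter.all false

namespace Pool.Agent.H427R3.ZT

open Pool.Agent.H387R3.ZT Polynomial

section aux

theorem coeff_powC {κ : Type} [Field κ] {N : ℕ} (hN : N ≠ 0) (P : κ[X]) (j : ℕ) :
    (powC N P).coeff j = P.coeff j ^ N := by
  unfold powC
  rw [Polynomial.sum_def, Polynomial.finset_sum_coeff]
  simp only [Polynomial.coeff_C_mul_X_pow]
  rw [Finset.sum_ite_eq P.support j (fun i => P.coeff i ^ N)]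
  split_ifs with h
  · rfl
  · rw [Polynomial.notMem_support_iff.1 h, zero_pow hN]

theorem coeff_redP {k F : Type} [Field k] [Field F] [Algebra k F] (v : FF.Place k F) (w : F[X])
    (j : ℕ) : (redP v w).coeff j = v.red (w.coeff j) := by
  unfold redP
  rw [Polynomial.sum_def, Polynomial.finset_sum_coeff]
  simp only [Polynomial.coeff_C_mul_X_pow]
  rw [Finset.sum_ite_eq w.support j (fun i => v.red (w.coeff i))]
  split_ifs with h
  · rfl
  · rw [Polynomial.notMem_support_iff.1 h, v.red_zero]

theorem prod_congr_dvd {R : Type*} [CommRing R] {x : R} {s : Finset ℕ} {f g : ℕ → R}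
    (h : ∀ i ∈ s, x ∣ f i - g i) : x ∣ ∏ i ∈ s, f i - ∏ i ∈ s, g i := by
  rw [← Ideal.mem_span_singleton, ← Ideal.Quotient.eq, map_prod, map_prod]
  refine Finset.prod_congr rfl fun i hi => ?_
  rw [Ideal.Quotient.eq, Ideal.mem_span_singleton]
  exact h i hi

end aux

/-- The residue field embedding. -/
theorem exists_iota {k F K : Type} [Field k] [Field F] [Algebra k F] [Field K] [Algebra F K]
    (v : FF.Place k F) (W : ValuationSubring K) (hW : W.comap (algebraMap F K) = v.O) :
    ∃ ι : v.RF →+* IsLocalRing.ResidueField W, ∀ (f : F) (hf : v.Reg f) (hf' : algebraMap F K f ∈ W),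
      ι (v.red f) = IsLocalRing.residue W ⟨algebraMap F K f, hf'⟩ := by
  have hmem' : ∀ f : F, f ∈ v.O → algebraMap F K f ∈ W := by
    intro f hf
    rw [← hW] at hf
    exact hf
  have hval : ∀ f : F, v.O.valuation f < 1 → W.valuation (algebraMap F K f) < 1 := by
    intro f hf
    rw [← hW] at hf
    exact (val_lt_iff W f).2 hf
  have hmem : ∀ x : v.O, algebraMap F K x.1 ∈ W := fun x => hmem' x.1 x.2
  let φ : v.O →+* W := ((algebraMap F K).comp v.O.subtype).codRestrict W.toSubring hmem
  have hloc : IsLocalHom φ := by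
    refine ⟨fun x hx => ?_⟩
    by_contra hc
    have h1 : x ∈ IsLocalRing.maximalIdeal v.O := (IsLocalRing.mem_maximalIdeal x).2 hc
    rw [ValuationSubring.valuation_lt_one_iff] at h1
    have h2 : φ x ∈ IsLocalRing.maximalIdeal W := by
      rw [ValuationSubring.valuation_lt_one_iff]
      exact hval _ h1
    exact (IsLocalRing.mem_maximalIdeal _).1 h2 hx
  refine ⟨IsLocalRing.ResidueField.map φ, fun f hf hf' => ?_⟩
  rw [v.red_of_reg hf]
  exact IsLocalRing.ResidueField.map_residue φ ⟨f, hf⟩

theorem taskB : TaskB := by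
  intro hA p n _ k F K _ _ _ _ _ _ _ _ _ _ Φ T hT hunr
  classical
  obtain ⟨b, hb1, hbT⟩ := hA k F K T hT hunr
  set 𝒱 := VV T with h𝒱
  have hpn : 0 < p ^ n := pow_pos (Fact.out : p.Prime).pos n
  have hbB : b ∈ BB K 𝒱 := by
    rintro W ⟨v, hv, hvW⟩
    exact hbT v hv W hvW.symm
  have hcF : CharP F p := charP_of_injective_algebraMap (algebraMap k F).injective p
  have hcK : CharP K p := charP_of_injective_algebraMap (algebraMap F K).injective p
  have hcB : CharP (BB K 𝒱) p := (BB K 𝒱).subtype.charP Subtype.val_injective p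
  let g : (K ≃ₐ[F] K) → (BB K 𝒱) →+* (BB K 𝒱) := fun s =>
    ((s : K →+* K).comp (BB K 𝒱).subtype).codRestrict (BB K 𝒱) fun x => apply_mem_BB s x.2
  have hg : ∀ s x, ((g s x : BB K 𝒱) : K) = s x.1 := fun s x => rfl
  obtain ⟨y, w0, hy0, hw00, hwy, hyt, hwt⟩ := exists_series (p := p) (n := n) g
    (fun s t => RingHom.ext fun x => Subtype.ext rfl) Φ ⟨b, hbB⟩ (by
      apply Subtype.ext
      have h1 : ((∑ s, g s ⟨b, hbB⟩ : BB K 𝒱) : K) = ∑ s : K ≃ₐ[F] K, s b := by
        push_cast
        rfl
      rw [h1, ← trace_eq_sum, hb1, map_one]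
      rfl)
  -- the coefficients of `w0` below `p ^ n` are in `F`
  have hcoef : ∀ i < p ^ n, ∃ f : F, algebraMap F K f = ((PowerSeries.coeff i w0 : BB K 𝒱) : K) := by
    intro i hi
    have h1 : ∀ t : K ≃ₐ[F] K, t ((PowerSeries.coeff i w0 : BB K 𝒱) : K) =
        ((PowerSeries.coeff i w0 : BB K 𝒱) : K) := by
      intro t
      have h2 := PowerSeries.X_pow_dvd_iff.1 (hwt t) i hi
      rw [map_sub, PowerSeries.coeff_map, sub_eq_zero] at h2
      rw [← hg, h2]
    exact (IsGalois.mem_range_algebraMap_iff_fixed _).2 h1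
  choose! f hf using hcoef
  have hfR : ∀ i < p ^ n, f i ∈ RR 𝒱 := by
    intro i hi
    rw [← algebraMap_mem_BB (K := K), hf i hi]
    exact Subtype.property _
  set w : F[X] := ∑ i ∈ Finset.range (p ^ n), Polynomial.monomial i (f i) with hw
  have hwc : ∀ j, w.coeff j = if j < p ^ n then f j else 0 := by
    intro j
    rw [hw, Polynomial.finset_sum_coeff]
    simp only [Polynomial.coeff_monomial]
    rw [Finset.sum_ite_eq' (Finset.range (p ^ n)) j f]
    simp only [Finset.mem_range]
  have hreg : ∀ v ∉ T, ∀ j, v.Reg (w.coeff j) := by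
    intro v hv j
    rw [hwc]
    split_ifs with h
    · exact mem_RR_VV.1 (hfR j h) v hv
    · exact v.reg_zero
  refine ⟨w, ?_, hreg, ?_⟩
  · rw [hwc, if_pos hpn]
    apply (algebraMap F K).injective
    rw [hf 0 hpn, PowerSeries.coeff_zero_eq_constantCoeff_apply, hw00, map_one]
    rfl
  intro v hv σ hσ
  obtain ⟨W, hW, hfr⟩ := hσ
  have hWV : W.comap (algebraMap F K) ∈ 𝒱 := ⟨v, hv, hW.symm⟩
  have hBW : ∀ x : BB K 𝒱, x.1 ∈ W := fun x => x.2 W hWV
  let red : BB K 𝒱 →+* IsLocalRing.ResidueField W :=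
    (IsLocalRing.residue W).comp ((BB K 𝒱).subtype.codRestrict W.toSubring hBW)
  have hred : ∀ x : BB K 𝒱, red x = IsLocalRing.residue W ⟨x.1, hBW x⟩ := fun x => rfl
  obtain ⟨ι, hι⟩ := exists_iota v W hW
  have hcV : CharP v.RF p := charP_of_injective_algebraMap (algebraMap k v.RF).injective p
  have hcκ : CharP (IsLocalRing.ResidueField W) p := charP_of_injective_ringHom ι.injective p
  -- the residue field is finite
  have hfd : FiniteDimensional k v.RF := inferInstance
  have hfin : Finite v.RF := Module.finite_of_finite k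
  obtain ⟨m, hm⟩ : ∃ m : ℕ, Nat.card v.RF = p ^ m := by
    have := Fintype.ofFinite v.RF
    obtain ⟨m, _, hm⟩ := FiniteField.card v.RF p
    exact ⟨m, by rw [Nat.card_eq_fintype_card, hm]⟩
  have hlog : Nat.log p (Nat.card v.RF) = m := by
    rw [hm, Nat.log_pow (Fact.out : p.Prime).one_lt]
  have hredσ : ∀ c, red (g σ c) = red c ^ (p ^ m) := by
    intro c
    have h1 := hfr c.1 (hBW c)
    rw [hm] at h1
    rw [hred, hred, ← map_pow, ← sub_eq_zero, ← map_sub, IsLocalRing.residue_eq_zero_iff,
      ValuationSubring.valuation_lt_one_iff]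
    exact h1
  have hmain := frob_series (p := p) (n := n) hy0 hwy (hyt σ) red hredσ
  -- transfer to polynomials
  set a := (Multiplicative.toAdd (Φ σ)).val with ha
  have hw1 : ∀ j, ((redP v w).map ι).coeff j = ι (v.red (w.coeff j)) := by
    intro j
    rw [Polynomial.coeff_map, coeff_redP]
  have hw2 : (PowerSeries.X : PowerSeries (IsLocalRing.ResidueField W)) ^ (p ^ n) ∣
      PowerSeries.map red w0 - (((redP v w).map ι : (IsLocalRing.ResidueField W)[X]) :
        PowerSeries (IsLocalRing.ResidueField W)) := by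
    rw [PowerSeries.X_pow_dvd_iff]
    intro i hi
    have hfi : v.Reg (f i) := mem_RR_VV.1 (hfR i hi) v hv
    have hmemi : algebraMap F K (f i) ∈ W := by rw [hf i hi]; exact hBW _
    rw [map_sub, Polynomial.coeff_coe, hw1, hwc, if_pos hi, hι (f i) hfi hmemi,
      PowerSeries.coeff_map, hred, sub_eq_zero]
    congr 1
    exact Subtype.ext (hf i hi).symm
  have hnrm : ((((1 + X) ^ a - nrmP p v w : v.RF[X]).map ι : (IsLocalRing.ResidueField W)[X]) :
      PowerSeries (IsLocalRing.ResidueField W)) = (1 + PowerSeries.X) ^ a -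
        ∏ l ∈ Finset.range m, PowerSeries.map (iterateFrobenius (IsLocalRing.ResidueField W) p l)
          (((redP v w).map ι : (IsLocalRing.ResidueField W)[X]) :
            PowerSeries (IsLocalRing.ResidueField W)) := by
    have h1 : ∀ l, (((powC (p ^ l) (redP v w)).map ι : (IsLocalRing.ResidueField W)[X]) :
        PowerSeries (IsLocalRing.ResidueField W)) =
        PowerSeries.map (iterateFrobenius (IsLocalRing.ResidueField W) p l)
          (((redP v w).map ι : (IsLocalRing.ResidueField W)[X]) :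
            PowerSeries (IsLocalRing.ResidueField W)) := by
      intro l
      ext j
      rw [Polynomial.coeff_coe, Polynomial.coeff_map, coeff_powC (pow_ne_zero _ (Fact.out : p.Prime).ne_zero),
        PowerSeries.coeff_map, Polynomial.coeff_coe, Polynomial.coeff_map, iterateFrobenius_def, map_pow]
    unfold nrmP nrm
    rw [hlog, Polynomial.map_sub, Polynomial.map_pow, Polynomial.map_add, Polynomial.map_one,
      Polynomial.map_X, Polynomial.map_prod, Polynomial.coe_sub, Polynomial.coe_pow,
      Polynomial.coe_add, Polynomial.coe_one, Polynomial.coe_X]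
    congr 1
    rw [← Polynomial.coeToPowerSeries.ringHom_apply, map_prod]
    exact Finset.prod_congr rfl fun l _ => h1 l
  have hfinal : (PowerSeries.X : PowerSeries (IsLocalRing.ResidueField W)) ^ (p ^ n) ∣
      ((((1 + X) ^ a - nrmP p v w : v.RF[X]).map ι : (IsLocalRing.ResidueField W)[X]) :
      PowerSeries (IsLocalRing.ResidueField W)) := by
    rw [hnrm]
    have h1 : (PowerSeries.X : PowerSeries (IsLocalRing.ResidueField W)) ^ (p ^ n) ∣
        ∏ l ∈ Finset.range m, PowerSeries.map (iterateFrobenius (IsLocalRing.ResidueField W) p l)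
          (PowerSeries.map red w0) -
        ∏ l ∈ Finset.range m, PowerSeries.map (iterateFrobenius (IsLocalRing.ResidueField W) p l)
          (((redP v w).map ι : (IsLocalRing.ResidueField W)[X]) :
            PowerSeries (IsLocalRing.ResidueField W)) := by
      apply prod_congr_dvd
      intro l _
      rw [← map_sub]
      exact map_dvd _ hw2
    have h2 := dvd_add hmain h1
    rwa [sub_add_sub_cancel] at h2
  rw [Polynomial.X_pow_dvd_iff]
  intro i hi
  have h1 := PowerSeries.X_pow_dvd_iff.1 hfinal i hi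
  rw [Polynomial.coeff_coe, Polynomial.coeff_map] at h1
  exact (map_eq_zero_iff ι ι.injective).1 h1

end Pool.Agent.H427R3.ZT
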